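import Pool.Agent.H19.SlowOsc

set_option autoImplicit false

namespace Pool.Agent.Results.MP_769d7c_al.Commuting

open Set Cardinal

universe u

variable {G : Type u} [Group G]

/-- `E_F[x] = {x} ∪ F x`. -/
def ball (F : Finset G) (x : G) : Set G := {y | y = x ∨ ∃ g ∈ F, y = g * x}

/-- Boundedly oscillating. -/
def BO (f : G → ℝ) : Prop :=
  ∃ C > 0, ∀ F : Finset G, ∃ B : Finset G, ∀ x ∉ B, Metric.diam (f '' ball F x) < C

/-- Slowly oscillating. -/
def SO (f : G → ℝ) : Prop :=
  ∀ F : Finset G, ∀ ε > 0, ∃ B : Finset G, ∀ x ∉ B, Metric.diam (f '' ball F x) < ε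

/-- Bounded outside a finite set. -/
def Bdd (f : G → ℝ) : Prop := ∃ B : Finset G, ∃ M : ℝ, ∀ x ∉ B, |f x| ≤ M

def BoBounded (G : Type u) [Group G] : Prop := ∀ f : G → ℝ, BO f → Bdd f

def SoBounded (G : Type u) [Group G] : Prop := ∀ f : G → ℝ, SO f → Bdd f

/-- An uncountable set `K` with infinite centralizer such that each conjugate of `K` meets `K` in an
uncountable set or is centralized by uncountably many elements of `K`. -/
def Good (G : Type u) [Group G] : Prop :=
  ∃ K : Set G, ¬ K.Countable ∧ {h | ∀ k ∈ K, Commute h k}.Infinite ∧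
    ∀ g, ¬ {k | k ∈ K ∧ g * k * g⁻¹ ∈ K}.Countable ∨
      ¬ {k | k ∈ K ∧ ∀ k', g * k' * g⁻¹ ∈ K → Commute k k'}.Countable

lemma ball_fin (F : Finset G) (x : G) : (ball F x).Finite :=
  ((F.finite_toSet.image (· * x)).insert x).subset fun y hy => by
    rcases hy with h | ⟨g, hg, h⟩
    · exact Or.inl h
    · exact Or.inr ⟨g, hg, h.symm⟩

lemma bo_so (h : BoBounded G) : SoBounded G := fun f hf => h f ⟨1, one_pos, fun F => hf F 1 one_pos⟩

lemma good_bo (h : Good G) : BoBounded G := by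
  rintro f ⟨C, hC, hf⟩
  obtain ⟨K, hK, hH, hg⟩ := h
  have e : ∀ S : Set G, ¬ S.Countable → ℵ₀ < #S := fun S h => by
    rwa [← le_aleph0_iff_set_countable, not_le] at h
  have h1 : ∀ g, #{x | C < |f (g * x) - f x|} < ℵ₀ := fun g => by
    obtain ⟨B, hB⟩ := hf {g}
    refine lt_aleph0_iff_set_finite.mpr (B.finite_toSet.subset fun x hx => by_contra fun h => ?_)
    have h2 := Metric.dist_le_diam_of_mem ((ball_fin {g} x).image f).isBounded
      (mem_image_of_mem f (show g * x ∈ ball {g} x from Or.inr ⟨g, by simp, rfl⟩))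
      (mem_image_of_mem f (show x ∈ ball {g} x from Or.inl rfl))
    rw [Real.dist_eq] at h2
    have h3 : C < |f (g * x) - f x| := hx
    linarith [hB x h]
  obtain ⟨c, hc⟩ := Pool.Agent.H19.SlowOsc.main le_rfl hC.le h1 K (e _ hK)
    (infinite_iff.mp hH.to_subtype) fun g => (hg g).imp (e _) (e _)
  refine ⟨(lt_aleph0_iff_set_finite.mp hc).toFinset, 16 * C + |c|, fun x hx => ?_⟩
  have h2 : |f x - c| ≤ 16 * C := by simpa using hx
  have h3 := abs_add_le (f x - c) c
  rw [sub_add_cancel] at h3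
  linarith

def S (e : ℕ → G) : ℕ → Set G
  | 0 => {1}
  | n + 1 => S e n ∪ ⋃ i ∈ Iic n, (e i * ·) '' S e n

lemma S_fin (e : ℕ → G) : ∀ n, (S e n).Finite
  | 0 => finite_singleton _
  | n + 1 => (S_fin e n).union ((finite_Iic n).biUnion fun _ _ => (S_fin e n).image _)

lemma S_mono (e : ℕ → G) : Monotone (S e) := monotone_nat_of_le_succ fun _ => subset_union_left

lemma S_step (e : ℕ → G) {i n : ℕ} {x : G} (hx : x ∈ S e n) : e i * x ∈ S e (max n i + 1) :=
  Or.inr (mem_biUnion (le_max_right n i) ⟨x, S_mono e (le_max_left n i) hx, rfl⟩)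

lemma len [Countable G] : ∃ l : G → ℕ, (∀ n, {x | l x ≤ n}.Finite) ∧
    ∀ g, ∃ m, ∀ x, l (g * x) ≤ max (l x) m + 1 := by
  classical
  obtain ⟨e, he⟩ := exists_surjective_nat G
  have h : ∀ x, ∃ n, x ∈ S e n := fun x => by
    obtain ⟨i, rfl⟩ := he x
    exact ⟨_, by simpa using S_step e (i := i) (n := 0) (x := 1) rfl⟩
  refine ⟨fun x => Nat.find (h x), fun n => (S_fin e n).subset fun x hx =>
    S_mono e hx (Nat.find_spec (h x)), fun g => ?_⟩
  obtain ⟨i, rfl⟩ := he g
  exact ⟨i, fun x => Nat.find_min' _ (S_step e (Nat.find_spec (h x)))⟩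

lemma not_so [Countable G] [Infinite G] : ¬ SoBounded G := by
  intro H
  obtain ⟨l, h1, h2⟩ := len (G := G)
  have key : ∀ g, ∀ δ : ℝ, 0 < δ → {x | δ < |√(l (g * x)) - √(l x)|}.Finite := by
    intro g δ hδ
    obtain ⟨m, hm⟩ := h2 g
    obtain ⟨m', hm'⟩ := h2 g⁻¹
    obtain ⟨N, hN⟩ := exists_nat_ge (1 / δ ^ 2)
    refine (h1 (N + m + m' + 2)).subset fun x hx => by_contra fun h => ?_
    have h3 : N + m + m' + 2 < l x := not_le.mp h
    have h4 := hm x
    have h5 := hm' (g * x)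
    rw [inv_mul_cancel_left] at h5
    have h6 : (l (g * x) : ℝ) ≤ l x + 1 := by exact_mod_cast (by omega : l (g * x) ≤ l x + 1)
    have h7 : (l x : ℝ) ≤ l (g * x) + 1 := by exact_mod_cast (by omega : l x ≤ l (g * x) + 1)
    have h8 : (N : ℝ) ≤ l x := by exact_mod_cast (by omega : N ≤ l x)
    have ha := Real.sq_sqrt (Nat.cast_nonneg (α := ℝ) (l (g * x)))
    have hb := Real.sq_sqrt (Nat.cast_nonneg (α := ℝ) (l x))
    have ha0 := Real.sqrt_nonneg (l (g * x) : ℝ)
    have hb0 := Real.sqrt_nonneg (l x : ℝ)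
    have h9 : 1 ≤ δ * √(l x) := by
      refine (one_le_sq_iff₀ (by positivity)).mp ?_
      rw [mul_pow, hb]
      have := (div_le_iff₀ (by positivity : 0 < δ ^ 2)).mp (hN.trans h8)
      linarith
    have hb1 : 0 < √(l x : ℝ) := by
      rcases hb0.eq_or_lt with h | h
      · rw [← h] at h9; linarith
      · exact h
    have hx' : δ < |√(l (g * x)) - √(l x)| := hx
    generalize √(l (g * x) : ℝ) = a at *
    generalize √(l x : ℝ) = b at *
    rcases lt_abs.mp hx' with h | h
    · nlinarith [mul_pos (sub_pos.mpr h) hb1, mul_nonneg (hδ.trans h).le ha0]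
    · nlinarith [mul_pos (sub_pos.mpr h) hb1, mul_nonneg (hδ.trans h).le ha0]
  obtain ⟨B, M, hM⟩ := H (fun x => √(l x)) fun F ε hε => by
    refine ⟨(F.finite_toSet.biUnion fun g _ => key g (ε / 4) (by positivity)).toFinset,
      fun x hx => ?_⟩
    refine (Metric.diam_le_of_subset_closedBall (x := √(l x)) (r := ε / 4) (by positivity)
      ?_).trans_lt (by linarith)
    rintro _ ⟨y, hy | ⟨g, hg, hy⟩, rfl⟩
    · rw [hy]; exact Metric.mem_closedBall_self (by positivity)
    · rw [hy, Metric.mem_closedBall, Real.dist_eq]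
      by_contra! h
      exact hx ((Finite.mem_toFinset _).mpr (mem_biUnion hg h))
  obtain ⟨N, hN⟩ := exists_nat_ge (M ^ 2)
  refine infinite_univ (α := G) ((B.finite_toSet.union (h1 N)).subset fun x _ => ?_)
  by_cases hx : x ∈ B
  · exact Or.inl hx
  · have h3 := sq_le_sq' (abs_le.mp (hM x hx)).1 (abs_le.mp (hM x hx)).2
    rw [Real.sq_sqrt (Nat.cast_nonneg _)] at h3
    exact Or.inr (show l x ≤ N by exact_mod_cast h3.trans hN)

theorem result (G : Type u) [Group G] :
    (Good G → BoBounded G) ∧ (Countable G ∨ Good G → (SoBounded G ↔ BoBounded G)) := by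
  refine ⟨good_bo, fun h => ⟨fun hs => ?_, bo_so⟩⟩
  rcases h with h | h
  · rcases finite_or_infinite G with hf | hf
    · exact fun f _ => ⟨(toFinite (univ : Set G)).toFinset, 0, fun x hx => absurd (by simp) hx⟩
    · exact absurd hs not_so
  · exact good_bo h

end Pool.Agent.Results.MP_769d7c_al.Commuting
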